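import Mathlib

/-!
# Third order recurrences
-/

set_option autoImplicit false

namespace Pool.Agent.Q74.Diff

open Real

/-- the state after `n` steps -/
noncomputable def st (F : ℝ → ℝ → ℝ → ℝ) (s : ℝ × ℝ × ℝ) : ℕ → ℝ × ℝ × ℝ
  | 0 => s
  | n + 1 => ((st F s n).2.1, (st F s n).2.2, F (st F s n).1 (st F s n).2.1 (st F s n).2.2)

/-- A third order recurrence has a solution with given initial values. -/
theorem exists_seq (F : ℝ → ℝ → ℝ → ℝ) (u v w : ℝ) : ∃ x : ℕ → ℝ, x 0 = u ∧ x 1 = v ∧ x 2 = w ∧
    ∀ n, x (n + 3) = F (x n) (x (n + 1)) (x (n + 2)) :=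
  ⟨fun n => (st F (u, v, w) n).1, rfl, rfl, rfl, fun _ => rfl⟩

/-- induction over three consecutive terms -/
theorem pos_of_rec {x : ℕ → ℝ} (h0 : 0 < x 0) (h1 : 0 < x 1) (h2 : 0 < x 2)
    (h : ∀ n, 0 < x n → 0 < x (n + 1) → 0 < x (n + 2) → 0 < x (n + 3)) : ∀ n, 0 < x n := by
  have key : ∀ n, 0 < x n ∧ 0 < x (n + 1) ∧ 0 < x (n + 2) := by
    intro n
    induction n with
    | zero => exact ⟨h0, h1, h2⟩
    | succ n ih => exact ⟨ih.2.1, ih.2.2, h n ih.1 ih.2.1 ih.2.2⟩
  exact fun n => (key n).1

/-- `log (C e ^ v + e ^ u)` differs from `max v u` by a bounded amount. -/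
theorem log_add_bounds {C : ℝ} (hC : 0 < C) (v u : ℝ) :
    max v u - (|log C| + 1) ≤ log (C * exp v + exp u) ∧
      log (C * exp v + exp u) ≤ max v u + (|log C| + 1) := by
  have hv := exp_pos v
  have hu := exp_pos u
  have h2 : log 2 ≤ 1 := by linarith [log_two_lt_d9]
  constructor
  · rcases le_total v u with h | h
    · rw [max_eq_right h]
      have h1 : u ≤ log (C * exp v + exp u) := by
        rw [le_log_iff_exp_le (by positivity)]
        nlinarith [mul_pos hC hv]
      linarith [abs_nonneg (log C)]
    · rw [max_eq_left h]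
      have h1 : log C + v ≤ log (C * exp v + exp u) := by
        rw [le_log_iff_exp_le (by positivity), exp_add, exp_log hC]
        linarith
      linarith [neg_abs_le (log C)]
  · have h1 : C * exp v + exp u ≤ 2 * (exp |log C| * exp (max v u)) := by
      have h3 : C ≤ exp |log C| := by
        rw [← log_le_iff_le_exp hC]
        exact le_abs_self _
      have h4 : exp v ≤ exp (max v u) := exp_le_exp.2 (le_max_left _ _)
      have h5 : exp u ≤ exp (max v u) := exp_le_exp.2 (le_max_right _ _)
      have h6 : 1 ≤ exp |log C| := one_le_exp (abs_nonneg _)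
      have h7 : C * exp v ≤ exp |log C| * exp (max v u) :=
        mul_le_mul h3 h4 hv.le (exp_pos _).le
      have h8 : exp u ≤ exp |log C| * exp (max v u) := by
        nlinarith [exp_pos (max v u)]
      linarith
    calc log (C * exp v + exp u) ≤ log (2 * (exp |log C| * exp (max v u))) :=
          log_le_log (by positivity) h1
      _ = log 2 + (|log C| + max v u) := by
          rw [log_mul two_ne_zero (by positivity), log_mul (by positivity) (by positivity),
            log_exp, log_exp]
      _ ≤ _ := by linarith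

end Pool.Agent.Q74.Diff
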