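import Mathlib

/-!
# The return map for `x (n+3) = (1 + x (n+2)) / (C x (n+1) + x n)`, `C` small
-/

set_option autoImplicit false

namespace Pool.Agent.Q74.Diff

open Real

/-- A regular turn of the six-cycle. -/
theorem typeI {C p q r x3 x4 x5 x6 x7 x8 : ℝ} (hC : 0 < C) (hC1 : C ≤ 1 / 100000)
    (hp : 1 / 8 ≤ p) (hq : 0 < q) (hr : 0 < r) (h3 : 0 < x3) (h4 : 0 < x4) (h5 : 0 < x5)
    (h6 : 0 < x6) (h7 : 0 < x7) (h8 : 0 < x8)
    (e3 : x3 * (C * q + p) = 1 + r) (e4 : x4 * (C * r + q) = 1 + x3)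
    (e5 : x5 * (C * x3 + r) = 1 + x4) (e6 : x6 * (C * x4 + x3) = 1 + x5)
    (e7 : x7 * (C * x5 + x4) = 1 + x6) (e8 : x8 * (C * x6 + x5) = 1 + x7)
    (hqC : q ≤ C ^ 2) (hr1 : C * p * r ≤ 9 * q) (hqp : q ≤ C ^ 10 * p) :
    p ≤ C * x6 ∧ q ≤ C * x7 ∧ x7 ≤ 2 ∧ C * x6 * x8 ≤ 9 * x7 ∧
      (C ^ 2 < x7 → x6 * x8 ≤ 6 * C * x7) ∧
      log (p / q) - 10 / p - 19 * (q / C ^ 2) ≤ log (x6 / x7) := by
  have hp0 : 0 < p := by linarith
  have hC2 : C ^ 2 ≤ C * (1 / 100000) := by rw [pow_two]; gcongr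
  have hCle : ∀ k : ℕ, C ^ (k + 2) ≤ C * (1 / 100000) := by
    intro k
    have : C ^ k ≤ 1 := pow_le_one₀ hC.le (by linarith)
    calc C ^ (k + 2) = C ^ k * C ^ 2 := by ring
      _ ≤ 1 * C ^ 2 := by gcongr
      _ ≤ _ := by linarith
  have c9 : C ^ 9 ≤ C * (1 / 100000) := hCle 7
  have c10 : C ^ 10 ≤ C * (1 / 100000) := hCle 8
  have hr2 : r ≤ 9 * C ^ 9 := by
    have : C * p * r ≤ C * p * (9 * C ^ 9) := by
      calc C * p * r ≤ 9 * q := hr1
        _ ≤ 9 * (C ^ 10 * p) := by gcongr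
        _ = C * p * (9 * C ^ 9) := by ring
    exact le_of_mul_le_mul_left this (by positivity)
  have hr3 : r ≤ 1 := by linarith
  have hCr : C * r ≤ 72 * q := by nlinarith [mul_pos hC hr]
  have hpx3 : p * x3 ≤ 2 := by nlinarith [mul_pos (mul_pos hC hq) h3]
  have hCq : C * q ≤ p := by
    have : C * q ≤ 1 * (C ^ 10 * p) := by
      apply mul_le_mul _ hqp hq.le zero_le_one
      linarith
    have h2 : C ^ 10 * p ≤ 1 * p := by
      apply mul_le_mul_of_nonneg_right _ hp0.le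
      linarith
    linarith
  have hpx3' : 1 ≤ 2 * p * x3 := by nlinarith
  have hx3 : x3 ≤ 16 := by nlinarith
  have hx4a : 1 ≤ 73 * q * x4 := by nlinarith
  have hx4b : q * x4 ≤ 17 := by nlinarith [mul_pos (mul_pos hC hr) h4]
  have hrp : p * r ≤ 9 * C := by
    have : C * (p * r) ≤ C * (9 * C) := by nlinarith
    exact le_of_mul_le_mul_left this hC
  have hm : p * (C * x3 + r) ≤ 11 * C := by nlinarith
  have hm0 : 0 < C * x3 + r := by positivity
  have hx45 : x4 ≤ x5 * (C * x3 + r) := by linarith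
  have hx5a : p * x4 ≤ 11 * C * x5 := by
    calc p * x4 ≤ p * (x5 * (C * x3 + r)) := by gcongr
      _ = x5 * (p * (C * x3 + r)) := by ring
      _ ≤ x5 * (11 * C) := by gcongr
      _ = _ := by ring
  have hf : x3 ≤ C * x4 := by
    calc x3 = x3 * 1 := by ring
      _ ≤ x3 * (73 * q * x4) := by gcongr
      _ ≤ x3 * (73 * (C ^ 10 * p) * x4) := by gcongr
      _ = 73 * C ^ 10 * x4 * (p * x3) := by ring
      _ ≤ 73 * C ^ 10 * x4 * 2 := by gcongr
      _ ≤ 73 * (C * (1 / 100000)) * x4 * 2 := by gcongr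
      _ ≤ _ := by nlinarith [mul_pos hC h4]
  have hx6a : x5 ≤ 2 * C * x4 * x6 := by nlinarith
  have hx6b : p ≤ 22 * C ^ 2 * x6 := by
    have : x4 * p ≤ x4 * (22 * C ^ 2 * x6) := by
      calc x4 * p = p * x4 := by ring
        _ ≤ 11 * C * x5 := hx5a
        _ ≤ 11 * C * (2 * C * x4 * x6) := by gcongr
        _ = _ := by ring
    exact le_of_mul_le_mul_left this h4
  have A1 : p ≤ C * x6 := by
    calc p ≤ 22 * C ^ 2 * x6 := hx6b
      _ ≤ 22 * (C * (1 / 100000)) * x6 := by gcongr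
      _ ≤ _ := by nlinarith [mul_pos hC h6]
  have hx5c : x4 ≤ 88 * C * x5 := by nlinarith
  have hx7a : x6 ≤ 89 * C * x5 * x7 := by nlinarith
  have hx7b : 1 ≤ 178 * C ^ 2 * x4 * x7 := by
    have : x5 * 1 ≤ x5 * (178 * C ^ 2 * x4 * x7) := by
      calc x5 * 1 = x5 := by ring
        _ ≤ 2 * C * x4 * x6 := hx6a
        _ ≤ 2 * C * x4 * (89 * C * x5 * x7) := by gcongr
        _ = _ := by ring
    exact le_of_mul_le_mul_left this h5
  have A2 : q ≤ C * x7 := by
    calc q = q * 1 := by ring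
      _ ≤ q * (178 * C ^ 2 * x4 * x7) := by gcongr
      _ = 178 * C ^ 2 * x7 * (q * x4) := by ring
      _ ≤ 178 * C ^ 2 * x7 * 17 := by gcongr
      _ ≤ 178 * (C * (1 / 100000)) * x7 * 17 := by gcongr
      _ ≤ _ := by nlinarith [mul_pos hC h7]
  -- an upper bound for `x7`
  have hup : x7 * (C * x5 + x4) * (C * x4) ≤ C * x4 + 1 + x5 := by
    have h1 : x6 * (C * x4) ≤ 1 + x5 := by nlinarith
    calc x7 * (C * x5 + x4) * (C * x4) = (1 + x6) * (C * x4) := by rw [e7]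
      _ = C * x4 + x6 * (C * x4) := by ring
      _ ≤ _ := by linarith
  have A3 : x7 ≤ 2 := by
    by_contra hcon
    push Not at hcon
    have hw : C * r + q ≤ 11 / 10 * C ^ 2 := by
      have h1 : C * r ≤ C * (9 * C ^ 9) := by gcongr
      have h2 : C * (9 * C ^ 9) = 9 * C ^ 8 * C ^ 2 := by ring
      have h3 : C ^ 8 ≤ C * (1 / 100000) := hCle 6
      have h4 : 9 * C ^ 8 * C ^ 2 ≤ 1 / 10 * C ^ 2 := by
        gcongr
        linarith
      linarith
    have hz : 10 / 11 ≤ C ^ 2 * x4 := by nlinarith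
    have hz1 : 1 ≤ C * x4 := by
      have : C ^ 2 * x4 = C * (C * x4) := by ring
      rw [this] at hz
      nlinarith [mul_pos hC h4]
    have hz2 : 1 ≤ x4 := by nlinarith
    have g1 : x7 * (C * x5 + x4) * (C * x4) = x7 * ((C ^ 2 * x4) * x5) + x7 * (C * x4 * x4) := by
      ring
    have g2 : 2 * (10 / 11 * x5) < x7 * ((C ^ 2 * x4) * x5) := by
      apply mul_lt_mul hcon _ (by positivity) h7.le
      gcongr
    have g3 : 2 * (C * x4) ≤ x7 * (C * x4 * x4) := by
      apply mul_le_mul hcon.le _ (by positivity) h7.le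
      nlinarith
    linarith
  have hx8a : x5 * x8 ≤ 3 := by nlinarith [mul_pos (mul_pos hC h6) h8]
  have hx68 : x6 * x8 ≤ 3 * (C + (C * x3 + r)) * x7 := by
    have h1 : x6 ≤ x7 * (x5 * (C + (C * x3 + r))) := by
      calc x6 ≤ 1 + x6 := by linarith
        _ = x7 * (C * x5 + x4) := e7.symm
        _ ≤ x7 * (C * x5 + x5 * (C * x3 + r)) := by gcongr
        _ = _ := by ring
    calc x6 * x8 ≤ x7 * (x5 * (C + (C * x3 + r))) * x8 := by gcongr
      _ = x7 * (C + (C * x3 + r)) * (x5 * x8) := by ring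
      _ ≤ x7 * (C + (C * x3 + r)) * 3 := by gcongr
      _ = _ := by ring
  have A4 : C * x6 * x8 ≤ 9 * x7 := by
    have hm2 : C * x3 + r ≤ 88 * C := by nlinarith
    calc C * x6 * x8 = C * (x6 * x8) := by ring
      _ ≤ C * (3 * (C + (C * x3 + r)) * x7) := by gcongr
      _ ≤ C * (3 * (C + 88 * C) * x7) := by gcongr
      _ = 267 * C ^ 2 * x7 := by ring
      _ ≤ 267 * (C * (1 / 100000)) * x7 := by gcongr
      _ ≤ 9 * x7 := by
        gcongr
        linarith
  have A5 : C ^ 2 < x7 → x6 * x8 ≤ 6 * C * x7 := by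
    intro hx7
    have hp11 : 11 ≤ p := by
      by_contra hcon
      push Not at hcon
      have h1 : 1 ≤ 803 * C ^ 10 * x4 := by
        calc (1 : ℝ) ≤ 73 * q * x4 := hx4a
          _ ≤ 73 * (C ^ 10 * p) * x4 := by gcongr
          _ ≤ 73 * (C ^ 10 * 11) * x4 := by gcongr
          _ = _ := by ring
      have h2 : 2 ≤ C ^ 4 * x4 := by
        have h3 : 803 * C ^ 6 ≤ 1 / 2 := by
          have := hCle 4
          linarith
        have h4' : 803 * C ^ 10 * x4 = (803 * C ^ 6) * (C ^ 4 * x4) := by ring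
        have h5' : (803 * C ^ 6) * (C ^ 4 * x4) ≤ 1 / 2 * (C ^ 4 * x4) := by gcongr
        linarith
      have h3' : C ^ 4 * x4 = C ^ 3 * (C * x4) := by ring
      have hz1 : 1 ≤ C * x4 := by
        have : C ^ 3 ≤ 1 := pow_le_one₀ hC.le (by linarith)
        nlinarith [mul_pos hC h4]
      have h4'' : 2 ≤ C ^ 3 * x4 := by
        have h0 : 0 < C ^ 3 * x4 := by positivity
        have : C ^ 4 * x4 = C * (C ^ 3 * x4) := by ring
        nlinarith
      have g1 : C ^ 2 * (C * x5 + x4) * (C * x4) = (C ^ 4 * x4) * x5 + (C ^ 3 * x4) * x4 := by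
        ring
      have g2 : C ^ 2 * (C * x5 + x4) * (C * x4) ≤ x7 * (C * x5 + x4) * (C * x4) := by gcongr
      have g3 : 2 * x5 ≤ (C ^ 4 * x4) * x5 := by gcongr
      have g4 : 2 * x4 ≤ (C ^ 3 * x4) * x4 := by gcongr
      have g5 : C * x4 ≤ x4 := by nlinarith
      have g6 : 1 ≤ x4 := by linarith
      linarith
    have hm2 : C * x3 + r ≤ C := by nlinarith
    calc x6 * x8 ≤ 3 * (C + (C * x3 + r)) * x7 := hx68
      _ ≤ 3 * (C + C) * x7 := by gcongr
      _ = _ := by ring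
  refine ⟨A1, A2, A3, A4, A5, ?_⟩
  have i1 : r ≤ C * x3 * (18 * (q / C ^ 2)) := by
    have h1 : C * r ≤ 18 * q * x3 := by
      calc C * r = C * r * 1 := by ring
        _ ≤ C * r * (2 * p * x3) := by gcongr
        _ = 2 * x3 * (C * p * r) := by ring
        _ ≤ 2 * x3 * (9 * q) := by gcongr
        _ = _ := by ring
    have h2 : C * x3 * (18 * (q / C ^ 2)) = 18 * q * x3 / C := by
      field_simp
    rw [h2, le_div_iff₀ hC]
    linarith
  have i2 : r ≤ q / C ^ 2 := by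
    rw [le_div_iff₀ (by positivity)]
    calc r * C ^ 2 = C * r * C := by ring
      _ ≤ 72 * q * C := by gcongr
      _ ≤ q := by nlinarith
  have i3 : C * r + q ≤ q * (1 + 9 / p) := by
    have h1 : C * r ≤ 9 * q / p := by
      rw [le_div_iff₀ hp0]
      linarith
    calc C * r + q ≤ 9 * q / p + q := by linarith
      _ = _ := by ring
  have i4 : p * x3 ≤ 1 + r := by nlinarith [mul_pos (mul_pos hC hq) h3]
  have i5 : x7 * (C * x5) ≤ x6 * (1 + 1 / x6) := by
    have : x6 * (1 + 1 / x6) = 1 + x6 := by field_simp; ring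
    rw [this]
    nlinarith [mul_pos h7 h4]
  have i6 : 1 / x6 ≤ 1 / p := by
    apply one_div_le_one_div_of_le hp0
    nlinarith
  have i7 : p * x7 ≤ q * x6 * exp (10 / p + 19 * (q / C ^ 2)) := by
    have hq2 : 0 < q / C ^ 2 := by positivity
    calc p * x7 = p * x7 * 1 := by ring
      _ ≤ p * x7 * (x4 * (C * r + q)) := by
        gcongr
        linarith
      _ ≤ p * x7 * ((x5 * (C * x3 + r)) * (C * r + q)) := by gcongr
      _ ≤ p * x7 * ((x5 * (C * x3 + C * x3 * (18 * (q / C ^ 2)))) * (q * (1 + 9 / p))) := by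
        gcongr
      _ = (x7 * (C * x5)) * (p * x3) * (1 + 18 * (q / C ^ 2)) * (q * (1 + 9 / p)) := by ring
      _ ≤ (x6 * (1 + 1 / x6)) * (1 + r) * (1 + 18 * (q / C ^ 2)) * (q * (1 + 9 / p)) := by
        gcongr
      _ ≤ (x6 * (1 + 1 / p)) * (1 + q / C ^ 2) * (1 + 18 * (q / C ^ 2)) * (q * (1 + 9 / p)) := by
        gcongr
      _ = q * x6 * ((1 + 1 / p) * (1 + 9 / p) * (1 + q / C ^ 2) * (1 + 18 * (q / C ^ 2))) := by
        ring
      _ ≤ q * x6 * (exp (1 / p) * exp (9 / p) * exp (q / C ^ 2) * exp (18 * (q / C ^ 2))) := by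
        have j1 : 1 + 1 / p ≤ exp (1 / p) := by linarith [add_one_le_exp (1 / p)]
        have j2 : 1 + 9 / p ≤ exp (9 / p) := by linarith [add_one_le_exp (9 / p)]
        have j3 : 1 + q / C ^ 2 ≤ exp (q / C ^ 2) := by linarith [add_one_le_exp (q / C ^ 2)]
        have j4 : 1 + 18 * (q / C ^ 2) ≤ exp (18 * (q / C ^ 2)) := by
          linarith [add_one_le_exp (18 * (q / C ^ 2))]
        gcongr
      _ = _ := by
        rw [← exp_add, ← exp_add, ← exp_add]
        congr 2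
        ring
  have i8 : p / q ≤ x6 / x7 * exp (10 / p + 19 * (q / C ^ 2)) := by
    rw [div_le_iff₀ hq, div_mul_eq_mul_div, div_mul_eq_mul_div, le_div_iff₀ h7]
    linarith
  have i9 := log_le_log (by positivity) i8
  rw [log_mul (by positivity) (exp_pos _).ne', log_exp] at i9
  linarith

end Pool.Agent.Q74.Diff
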