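import Mathlib

/-!
# The return map for `x (n+3) = (1 + x (n+2)) / (C x (n+1) + x n)`, `C` small: the passage
-/

set_option autoImplicit false

namespace Pool.Agent.Q74.Diff

open Real

/-- The passage between two legs. -/
theorem typeII {C p q r x3 x4 x5 x6 x7 x8 x9 : ℝ} (hC : 0 < C) (hC1 : C ≤ 1 / 100000)
    (hp0 : 0 < p) (hq : 0 < q) (hr : 0 < r) (h3 : 0 < x3) (h4 : 0 < x4) (h5 : 0 < x5)
    (h6 : 0 < x6) (h7 : 0 < x7) (h8 : 0 < x8) (h9 : 0 < x9)
    (e3 : x3 * (C * q + p) = 1 + r) (e4 : x4 * (C * r + q) = 1 + x3)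
    (e5 : x5 * (C * x3 + r) = 1 + x4) (e6 : x6 * (C * x4 + x3) = 1 + x5)
    (e7 : x7 * (C * x5 + x4) = 1 + x6) (e8 : x8 * (C * x6 + x5) = 1 + x7)
    (e9 : x9 * (C * x7 + x6) = 1 + x8)
    (hqC : C ^ 2 < q) (hq2 : q ≤ 2) (hpr : p * r ≤ 6 * C * q) (hqp : q ≤ C ^ 10 * p) :
    1 / 8 ≤ x7 ∧ x8 ≤ C ^ 2 ∧ C * x7 * x9 ≤ 9 * x8 ∧ p * x8 ≤ 252 * C * q * x7 := by
  have hC2 : C ^ 2 ≤ C * (1 / 100000) := by rw [pow_two]; gcongr
  have hCle : ∀ k : ℕ, C ^ (k + 2) ≤ C * (1 / 100000) := by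
    intro k
    have : C ^ k ≤ 1 := pow_le_one₀ hC.le (by linarith)
    calc C ^ (k + 2) = C ^ k * C ^ 2 := by ring
      _ ≤ 1 * C ^ 2 := by gcongr
      _ ≤ _ := by linarith
  have hp8 : 1 ≤ C ^ 8 * p := by
    have : C ^ 2 * 1 ≤ C ^ 2 * (C ^ 8 * p) := by
      calc C ^ 2 * 1 ≤ q := by linarith
        _ ≤ C ^ 10 * p := hqp
        _ = _ := by ring
    exact le_of_mul_le_mul_left this (by positivity)
  have hp1 : 100000 ≤ C * p := by
    have h1 : C ^ 8 * p = C ^ 7 * (C * p) := by ring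
    have h2 : C ^ 7 ≤ 1 / 100000 := by
      have := hCle 5
      linarith
    have h3 : C ^ 7 * (C * p) ≤ 1 / 100000 * (C * p) := by gcongr
    linarith
  have hp2 : 100000 ≤ p := by nlinarith
  have hr1 : r ≤ 1 := by
    have : p * r ≤ 12 * C := by nlinarith
    nlinarith
  have hCr : C * r ≤ q := by
    have h1 : p * (C * r) ≤ p * q := by
      calc p * (C * r) = C * (p * r) := by ring
        _ ≤ C * (6 * C * q) := by gcongr
        _ = (6 * C ^ 2) * q := by ring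
        _ ≤ p * q := by
          gcongr
          linarith
    exact le_of_mul_le_mul_left h1 hp0
  have hpx3 : p * x3 ≤ 2 := by nlinarith [mul_pos (mul_pos hC hq) h3]
  have hx3 : x3 ≤ 1 := by nlinarith
  have hx4a : 1 ≤ 2 * q * x4 := by nlinarith
  have hx4b : q * x4 ≤ 2 := by nlinarith [mul_pos (mul_pos hC hr) h4]
  have hm : p * (C * x3 + r) ≤ 14 * C := by nlinarith
  have hm0 : 0 < C * x3 + r := by positivity
  have hx45 : x4 ≤ x5 * (C * x3 + r) := by linarith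
  have hx5a : p * x4 ≤ 14 * C * x5 := by
    calc p * x4 ≤ p * (x5 * (C * x3 + r)) := by gcongr
      _ = x5 * (p * (C * x3 + r)) := by ring
      _ ≤ x5 * (14 * C) := by gcongr
      _ = _ := by ring
  have hx5b : p ≤ 28 * C * q * x5 := by
    calc p = p * 1 := by ring
      _ ≤ p * (2 * q * x4) := by gcongr
      _ = 2 * q * (p * x4) := by ring
      _ ≤ 2 * q * (14 * C * x5) := by gcongr
      _ = _ := by ring
  have hx4c : 1 / 4 ≤ x4 := by nlinarith
  have hf : x3 ≤ C * x4 := by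
    have h1 : p * x3 ≤ p * (C * x4) := by
      calc p * x3 ≤ 2 := hpx3
        _ ≤ 100000 * (1 / 4) := by norm_num
        _ ≤ (C * p) * x4 := by gcongr
        _ = _ := by ring
    exact le_of_mul_le_mul_left h1 hp0
  have hx6a : x5 ≤ 2 * C * x4 * x6 := by nlinarith
  have hx45' : x4 ≤ C * x5 := by
    have h1 : p * x4 ≤ p * (C * x5) := by
      calc p * x4 ≤ 14 * C * x5 := hx5a
        _ = 14 * (C * x5) := by ring
        _ ≤ p * (C * x5) := by
          gcongr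
          linarith
    exact le_of_mul_le_mul_left h1 hp0
  have hx7a : x6 ≤ 2 * C * x5 * x7 := by nlinarith
  have hx7b : 1 ≤ 4 * C ^ 2 * x4 * x7 := by
    have : x5 * 1 ≤ x5 * (4 * C ^ 2 * x4 * x7) := by
      calc x5 * 1 = x5 := by ring
        _ ≤ 2 * C * x4 * x6 := hx6a
        _ ≤ 2 * C * x4 * (2 * C * x5 * x7) := by gcongr
        _ = _ := by ring
    exact le_of_mul_le_mul_left this h5
  have B1 : 1 / 8 ≤ x7 := by
    have h1 : C ^ 2 * 1 ≤ C ^ 2 * (8 * x7) := by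
      calc C ^ 2 * 1 ≤ q * 1 := by linarith
        _ ≤ q * (4 * C ^ 2 * x4 * x7) := by gcongr
        _ = 4 * C ^ 2 * x7 * (q * x4) := by ring
        _ ≤ 4 * C ^ 2 * x7 * 2 := by gcongr
        _ = _ := by ring
    have := le_of_mul_le_mul_left h1 (by positivity)
    linarith
  have hup : x7 * (C * x5 + x4) * (C * x4) ≤ C * x4 + 1 + x5 := by
    have h1 : x6 * (C * x4) ≤ 1 + x5 := by nlinarith
    calc x7 * (C * x5 + x4) * (C * x4) = (1 + x6) * (C * x4) := by rw [e7]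
      _ = C * x4 + x6 * (C * x4) := by ring
      _ ≤ _ := by linarith
  have hx5big : 1 ≤ x5 := by
    have : (1 : ℝ) * 1 ≤ 28 * C * q * x5 := by linarith
    have h2 : 28 * C * q ≤ 1 := by nlinarith
    nlinarith
  have hx7c : C ^ 2 * x7 ≤ 12 := by
    have h1 : x5 * (C ^ 2 * x7 * x4) ≤ x5 * 3 := by
      calc x5 * (C ^ 2 * x7 * x4) ≤ x7 * (C * x5 + x4) * (C * x4) := by
            nlinarith [mul_pos (mul_pos hC h7) (mul_pos h4 h4)]
        _ ≤ C * x4 + 1 + x5 := hup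
        _ ≤ x5 * 3 := by nlinarith
    have h2 := le_of_mul_le_mul_left h1 h5
    have h3 : 0 < C ^ 2 * x7 := by positivity
    nlinarith
  have hx85 : x8 * x5 ≤ 1 + x7 := by nlinarith [mul_pos (mul_pos hC h6) h8]
  have B2 : x8 ≤ C ^ 2 := by
    have h1 : C ^ 2 * (x8 * x5) ≤ 13 := by
      calc C ^ 2 * (x8 * x5) ≤ C ^ 2 * (1 + x7) := by gcongr
        _ = C ^ 2 + C ^ 2 * x7 := by ring
        _ ≤ _ := by linarith
    -- `q ≤ C ^ 10 p ≤ 28 C ^ 11 q x5`
    have h2 : 1 ≤ 28 * C ^ 11 * x5 := by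
      have : q * 1 ≤ q * (28 * C ^ 11 * x5) := by
        calc q * 1 ≤ C ^ 10 * p := by linarith
          _ ≤ C ^ 10 * (28 * C * q * x5) := by gcongr
          _ = _ := by ring
      exact le_of_mul_le_mul_left this hq
    calc x8 = x8 * 1 := by ring
      _ ≤ x8 * (28 * C ^ 11 * x5) := by gcongr
      _ = 28 * C ^ 9 * (C ^ 2 * (x8 * x5)) := by ring
      _ ≤ 28 * C ^ 9 * 13 := by gcongr
      _ = (364 * C ^ 7) * C ^ 2 := by ring
      _ ≤ 1 * C ^ 2 := by
        gcongr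
        have := hCle 5
        linarith
      _ = _ := by ring
  have hx4d : C ^ 2 * x4 ≤ 2 := by nlinarith
  have B3 : C * x7 * x9 ≤ 9 * x8 := by
    have h1 : x6 * x9 ≤ 2 := by nlinarith [mul_pos (mul_pos hC h7) h9]
    have h2 : x7 ≤ x8 * (C * x6 + 2 * C * x4 * x6) := by
      calc x7 ≤ 1 + x7 := by linarith
        _ = x8 * (C * x6 + x5) := e8.symm
        _ ≤ _ := by gcongr
    calc C * x7 * x9 ≤ C * (x8 * (C * x6 + 2 * C * x4 * x6)) * x9 := by gcongr
      _ = (C ^ 2 + 2 * (C ^ 2 * x4)) * x8 * (x6 * x9) := by ring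
      _ ≤ (1 / 2 + 2 * 2) * x8 * 2 := by
        gcongr
        linarith
      _ = _ := by ring
  refine ⟨B1, B2, B3, ?_⟩
  calc p * x8 ≤ 28 * C * q * x5 * x8 := by gcongr
    _ = 28 * C * q * (x8 * x5) := by ring
    _ ≤ 28 * C * q * (1 + x7) := by gcongr
    _ ≤ 28 * C * q * (9 * x7) := by
      gcongr
      linarith
    _ = _ := by ring

end Pool.Agent.Q74.Diff
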